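import Pool.Agent.H797R3.Fin

set_option autoImplicit false

namespace Pool.Agent.H797R3

open Submodule

/-! ### characteristic two -/

section two

variable {B : Type} [Finite B] (G : Rep (ZMod 2) B) (o : B)

/-- vectors -/
abbrev X2 : Fin 3 → ZMod 2 := ![1, 0, 0]
abbrev Y2 : Fin 3 → ZMod 2 := ![0, 1, 0]
abbrev E2 : Fin 3 → ZMod 2 := ![0, 0, 1]
abbrev Z2 : Fin 3 → ZMod 2 := ![1, 1, 0]
abbrev XE2 : Fin 3 → ZMod 2 := ![1, 0, 1]
abbrev YE2 : Fin 3 → ZMod 2 := ![0, 1, 1]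
abbrev ZE2 : Fin 3 → ZMod 2 := ![1, 1, 1]

theorem even_two (a0 : B) (ha0 : G.R (line X2) o a0) (ha1 : ¬ G.R ⊥ o a0) :
    2 ∣ Nat.card (Q (G.R ⊥) (G.R (line X2)) o) := by
  -- the basic points
  obtain ⟨a', haz, hay⟩ : ∃ a', G.R (line Z2) a0 a' ∧ G.R (line Y2) a' o :=
    G.mid (Setoid.symm' _ ha0) (Setoid.refl' (G.R (line X2)) o) (by decide) (by decide)
  obtain ⟨r, hr1, hr2⟩ : ∃ r, G.R (line XE2) a0 r ∧ G.R (line E2) r o :=
    G.mid (Setoid.symm' _ ha0) (Setoid.refl' (G.R (line X2)) o) (by decide) (by decide)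
  have ha'r : G.R (line YE2) a' r := by
    have h1 : G.R (plane X2) a' r :=
      Setoid.trans' _ (G.pl X2 hay (by decide)) (Setoid.symm' _ (G.pl X2 hr2 (by decide)))
    have h2 : G.R (plane ZE2) a' r :=
      Setoid.trans' _ (Setoid.symm' _ (G.pl ZE2 haz (by decide))) (G.pl ZE2 hr1 (by decide))
    exact G.meetl h1 h2 (by decide)
  -- the relation
  let P : {b : B // G.R (line X2) o b} → {b : B // G.R (line X2) o b} → Prop := fun t v =>
    ∃ u, G.R (line Y2) t.1 u ∧ G.R (line X2) u a' ∧ G.R (line Z2) u v.1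
  refine even_card _ P ?_ ?_ ?_ ?_
  · rintro ⟨t, ht⟩
    obtain ⟨u, hu1, hu2⟩ : ∃ u, G.R (line Y2) t u ∧ G.R (line X2) u a' :=
      G.mid (Setoid.symm' _ ht) (Setoid.symm' _ hay) (by decide) (by decide)
    obtain ⟨v, hv1, hv2⟩ : ∃ v, G.R (line Z2) u v ∧ G.R (line X2) v o :=
      G.mid (Setoid.symm' _ hu1) (Setoid.symm' _ ht) (by decide) (by decide)
    exact ⟨⟨v, Setoid.symm' _ hv2⟩, u, hu1, hu2, hv1⟩
  · rintro ⟨t, ht⟩ ⟨t', ht'⟩ ⟨v, hv⟩ ⟨v', hv'⟩ htt ⟨u, hu1, hu2, hu3⟩ ⟨u', hu1', hu2', hu3'⟩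
    change G.R ⊥ t t' at htt
    change G.R ⊥ v v'
    have h1 : G.R (line Y2) u u' :=
      Setoid.trans' _ (Setoid.symm' _ hu1) (Setoid.trans' _ (G.bot_line _ htt) hu1')
    have h2 : G.R (line X2) u u' := Setoid.trans' _ hu2 (Setoid.symm' _ hu2')
    have h3 : G.R ⊥ u u' := G.meet0 h1 h2 (by decide)
    have h4 : G.R (line Z2) v v' :=
      Setoid.trans' _ (Setoid.symm' _ hu3) (Setoid.trans' _ (G.bot_line _ h3) hu3')
    have h5 : G.R (line X2) v v' := Setoid.trans' _ (Setoid.symm' _ hv) hv'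
    exact G.meet0 h4 h5 (by decide)
  · rintro ⟨t, ht⟩ ⟨v, hv⟩ ⟨u, hu1, hu2, hu3⟩
    change G.R (line Y2) t u at hu1
    change G.R (line Z2) u v at hu3
    obtain ⟨p, hp1, hp2⟩ : ∃ p, G.R (line E2) t p ∧ G.R (line X2) p r :=
      G.mid (Setoid.symm' _ ht) (Setoid.symm' _ hr2) (by decide) (by decide)
    have hup : G.R (line YE2) u p := by
      have h1 : G.R (plane X2) u p :=
        Setoid.trans' _ (Setoid.symm' _ (G.pl X2 hu1 (by decide))) (G.pl X2 hp1 (by decide))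
      have h2 : G.R (plane YE2) u p :=
        Setoid.trans' _ (G.pl YE2 hu2 (by decide)) (Setoid.trans' _ (G.pl YE2 ha'r (by decide))
          (Setoid.symm' _ (G.pl YE2 hp2 (by decide))))
      exact G.meetl h1 h2 (by decide)
    have hvp : G.R (line XE2) v p := by
      have h1 : G.R (plane ZE2) v p :=
        Setoid.trans' _ (Setoid.symm' _ (G.pl ZE2 hu3 (by decide))) (G.pl ZE2 hup (by decide))
      have h2 : G.R (plane Y2) v p :=
        Setoid.trans' _ (Setoid.symm' _ (G.pl Y2 hv (by decide)))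
          (Setoid.trans' _ (G.pl Y2 ht (by decide)) (G.pl Y2 hp1 (by decide)))
      exact G.meetl h1 h2 (by decide)
    obtain ⟨u', hu1', hu2'⟩ : ∃ u, G.R (line Y2) v u ∧ G.R (line X2) u a' :=
      G.mid (Setoid.symm' _ hv) (Setoid.symm' _ hay) (by decide) (by decide)
    have hu'p : G.R (line ZE2) u' p := by
      have h1 : G.R (plane XE2) u' p :=
        Setoid.trans' _ (Setoid.symm' _ (G.pl XE2 hu1' (by decide))) (G.pl XE2 hvp (by decide))
      have h2 : G.R (plane YE2) u' p :=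
        Setoid.trans' _ (G.pl YE2 hu2' (by decide)) (Setoid.trans' _ (G.pl YE2 ha'r (by decide))
          (Setoid.symm' _ (G.pl YE2 hp2 (by decide))))
      exact G.meetl h1 h2 (by decide)
    have hu't : G.R (line Z2) u' t := by
      have h1 : G.R (plane Z2) u' t :=
        Setoid.trans' _ (G.pl Z2 hu'p (by decide)) (Setoid.symm' _ (G.pl Z2 hp1 (by decide)))
      have h2 : G.R (plane E2) u' t :=
        Setoid.trans' _ (Setoid.symm' _ (G.pl E2 hu1' (by decide)))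
          (Setoid.trans' _ (Setoid.symm' _ (G.pl E2 hv (by decide))) (G.pl E2 ht (by decide)))
      exact G.meetl h1 h2 (by decide)
    exact ⟨u', hu1', hu2', hu't⟩
  · rintro ⟨t, ht⟩ ⟨v, hv⟩ ⟨u, hu1, hu2, hu3⟩ htv
    change G.R (line Y2) t u at hu1
    change G.R (line Z2) u v at hu3
    change G.R ⊥ t v at htv
    have h1 : G.R (line Z2) u t := Setoid.trans' _ hu3 (Setoid.symm' _ (G.bot_line _ htv))
    have h2 : G.R ⊥ u t := G.meet0 h1 (Setoid.symm' _ hu1) (by decide)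
    have h3 : G.R (line X2) a' o := Setoid.trans' _ (Setoid.symm' _ hu2)
      (Setoid.trans' _ (G.bot_line _ h2) (Setoid.symm' _ ht))
    have h4 : G.R ⊥ a' o := G.meet0 h3 hay (by decide)
    have h5 : G.R (line Z2) a0 o := Setoid.trans' _ haz (G.bot_line _ h4)
    have h6 : G.R ⊥ a0 o := G.meet0 h5 (Setoid.symm' _ ha0) (by decide)
    exact ha1 (Setoid.symm' _ h6)

end two

/-! ### characteristic three -/

section three

variable {B : Type} [Finite B] (G : Rep (ZMod 3) B) (o : B)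

abbrev X3 : Fin 3 → ZMod 3 := ![1, 0, 0]
abbrev Y3 : Fin 3 → ZMod 3 := ![0, 1, 0]
abbrev E3 : Fin 3 → ZMod 3 := ![0, 0, 1]
abbrev Z3 : Fin 3 → ZMod 3 := ![1, 1, 0]
abbrev W3 : Fin 3 → ZMod 3 := ![1, -1, 0]

theorem odd_three :
    ¬ 2 ∣ Nat.card (Q (G.R ⊥) (G.R (line X3)) o) := by
  let P : {b : B // G.R (line X3) o b} → {b : B // G.R (line X3) o b} → Prop := fun t v =>
    ∃ u, G.R (line Z3) t.1 u ∧ G.R (line Y3) u o ∧ G.R (line W3) u v.1
  refine odd_card _ P ?_ ?_ ?_ ⟨o, Setoid.refl' _ o⟩ ?_ ?_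
  · rintro ⟨t, ht⟩
    obtain ⟨u, hu1, hu2⟩ : ∃ u, G.R (line Z3) t u ∧ G.R (line Y3) u o :=
      G.mid (Setoid.symm' _ ht) (Setoid.refl' (G.R (line X3)) o) (by decide) (by decide)
    obtain ⟨v, hv1, hv2⟩ : ∃ v, G.R (line W3) u v ∧ G.R (line X3) v o :=
      G.mid hu2 (Setoid.refl' (G.R (line X3)) o) (by decide) (by decide)
    exact ⟨⟨v, Setoid.symm' _ hv2⟩, u, hu1, hu2, hv1⟩
  · rintro ⟨t, ht⟩ ⟨t', ht'⟩ ⟨v, hv⟩ ⟨v', hv'⟩ htt ⟨u, hu1, hu2, hu3⟩ ⟨u', hu1', hu2', hu3'⟩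
    change G.R ⊥ t t' at htt
    change G.R ⊥ v v'
    have h1 : G.R (line Z3) u u' :=
      Setoid.trans' _ (Setoid.symm' _ hu1) (Setoid.trans' _ (G.bot_line _ htt) hu1')
    have h2 : G.R (line Y3) u u' := Setoid.trans' _ hu2 (Setoid.symm' _ hu2')
    have h3 : G.R ⊥ u u' := G.meet0 h1 h2 (by decide)
    have h4 : G.R (line W3) v v' :=
      Setoid.trans' _ (Setoid.symm' _ hu3) (Setoid.trans' _ (G.bot_line _ h3) hu3')
    have h5 : G.R (line X3) v v' := Setoid.trans' _ (Setoid.symm' _ hv) hv'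
    exact G.meet0 h4 h5 (by decide)
  · rintro ⟨t, ht⟩ ⟨v, hv⟩ ⟨t1, h1, h2, h3⟩
    change G.R (line Z3) t t1 at h1
    change G.R (line W3) t1 v at h3
    obtain ⟨r, hr1, hr2⟩ : ∃ r, G.R (line ![1, 0, -1]) t r ∧ G.R (line E3) r o :=
      G.mid (Setoid.symm' _ ht) (Setoid.refl' (G.R (line X3)) o) (by decide) (by decide)
    have ht1r : G.R (line ![0, 1, 1]) t1 r := by
      have k1 : G.R (plane ![1, -1, 1]) t1 r :=
        Setoid.trans' _ (Setoid.symm' _ (G.pl _ h1 (by decide))) (G.pl _ hr1 (by decide))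
      have k2 : G.R (plane X3) t1 r :=
        Setoid.trans' _ (G.pl _ h2 (by decide)) (Setoid.symm' _ (G.pl _ hr2 (by decide)))
      exact G.meetl k1 k2 (by decide)
    have hvr : G.R (line ![1, 0, 1]) v r := by
      have k1 : G.R (plane ![1, 1, -1]) v r :=
        Setoid.trans' _ (Setoid.symm' _ (G.pl _ h3 (by decide))) (G.pl _ ht1r (by decide))
      have k2 : G.R (plane Y3) v r :=
        Setoid.trans' _ (Setoid.symm' _ (G.pl _ hv (by decide)))
          (Setoid.symm' _ (G.pl _ hr2 (by decide)))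
      exact G.meetl k1 k2 (by decide)
    obtain ⟨t3, h4, h5⟩ : ∃ u, G.R (line Z3) v u ∧ G.R (line Y3) u o :=
      G.mid (Setoid.symm' _ hv) (Setoid.refl' (G.R (line X3)) o) (by decide) (by decide)
    have ht3r : G.R (line ![0, 1, -1]) t3 r := by
      have k1 : G.R (plane ![1, -1, -1]) t3 r :=
        Setoid.trans' _ (Setoid.symm' _ (G.pl _ h4 (by decide))) (G.pl _ hvr (by decide))
      have k2 : G.R (plane X3) t3 r :=
        Setoid.trans' _ (G.pl _ h5 (by decide)) (Setoid.symm' _ (G.pl _ hr2 (by decide)))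
      exact G.meetl k1 k2 (by decide)
    have ht3t : G.R (line W3) t3 t := by
      have k1 : G.R (plane ![1, 1, 1]) t3 t :=
        Setoid.trans' _ (G.pl _ ht3r (by decide)) (Setoid.symm' _ (G.pl _ hr1 (by decide)))
      have k2 : G.R (plane E3) t3 t :=
        Setoid.trans' _ (G.pl _ h5 (by decide)) (G.pl _ ht (by decide))
      exact G.meetl k1 k2 (by decide)
    exact ⟨t3, h4, h5, ht3t⟩
  · rintro ⟨t, ht⟩ ⟨v, hv⟩ ⟨t1, h1, h2, h3⟩ htv
    change G.R (line Z3) t t1 at h1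
    change G.R (line W3) t1 v at h3
    change G.R ⊥ t v at htv
    change G.R ⊥ t o
    have k1 : G.R (line W3) t1 t := Setoid.trans' _ h3 (Setoid.symm' _ (G.bot_line _ htv))
    have k2 : G.R ⊥ t1 t := G.meet0 k1 (Setoid.symm' _ h1) (by decide)
    have k3 : G.R (line Y3) t o := Setoid.trans' _ (Setoid.symm' _ (G.bot_line _ k2)) h2
    exact G.meet0 k3 (Setoid.symm' _ ht) (by decide)
  · rintro ⟨v, hv⟩ ⟨t1, h1, h2, h3⟩
    change G.R (line Z3) o t1 at h1
    change G.R (line W3) t1 v at h3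
    change G.R ⊥ o v
    have k1 : G.R ⊥ o t1 := G.meet0 h1 (Setoid.symm' _ h2) (by decide)
    have k2 : G.R (line W3) o v := Setoid.trans' _ (G.bot_line _ k1) h3
    exact G.meet0 k2 hv (by decide)

end three

end Pool.Agent.H797R3
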