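import Mathlib

set_option autoImplicit false

namespace Pool.Agent.H797R3

open Submodule

/-- the line spanned by `w` -/
abbrev line {k : Type} [Field k] (w : Fin 3 → k) : Submodule k (Fin 3 → k) := span k {w}

/-- the plane with normal `l` -/
def plane {k : Type} [Field k] (l : Fin 3 → k) : Submodule k (Fin 3 → k) where
  carrier := {v | l 0 * v 0 + l 1 * v 1 + l 2 * v 2 = 0}
  add_mem' := by
    intro a b ha hb
    simp only [Set.mem_ofPred_eq, Pi.add_apply] at *
    linear_combination ha + hb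
  zero_mem' := by simp
  smul_mem' := by
    intro c a ha
    simp only [Set.mem_ofPred_eq, Pi.smul_apply, smul_eq_mul] at *
    linear_combination c * ha

theorem mem_plane {k : Type} [Field k] (l v : Fin 3 → k) :
    v ∈ plane l ↔ l 0 * v 0 + l 1 * v 1 + l 2 * v 2 = 0 := Iff.rfl

/-- A type-1 representation of the subspace lattice of `k^3`. -/
structure Rep (k : Type) [Field k] (B : Type) where
  R : Submodule k (Fin 3 → k) → Setoid B
  inf : ∀ W T a b, R (W ⊓ T) a b ↔ R W a b ∧ R T a b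
  comp : ∀ W T a b, R (W ⊔ T) a b ↔ ∃ c, R W a c ∧ R T c b

namespace Rep

variable {k : Type} [Field k] {B : Type} (G : Rep k B)

theorem mono {W T : Submodule k (Fin 3 → k)} (h : W ≤ T) {a b : B} (hab : G.R W a b) : G.R T a b := by
  have := (G.inf W T a b).1 (by rwa [inf_eq_left.2 h])
  exact this.2

theorem pl (l : Fin 3 → k) {w : Fin 3 → k} {a b : B} (h : G.R (line w) a b)
    (hw : l 0 * w 0 + l 1 * w 1 + l 2 * w 2 = 0) : G.R (plane l) a b := by
  refine G.mono ?_ h
  rw [line, span_singleton_le_iff_mem]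
  exact hw

theorem meetl {l l' w : Fin 3 → k} {a b : B} (h : G.R (plane l) a b) (h' : G.R (plane l') a b)
    (hl : ∀ x y z : k, l 0 * x + l 1 * y + l 2 * z = 0 → l' 0 * x + l' 1 * y + l' 2 * z = 0 →
      ∃ c : k, c * w 0 = x ∧ c * w 1 = y ∧ c * w 2 = z) : G.R (line w) a b := by
  have h2 := (G.inf (plane l) (plane l') a b).2 ⟨h, h'⟩
  refine G.mono ?_ h2
  rintro v ⟨h3, h4⟩
  obtain ⟨c, h5, h6, h7⟩ := hl _ _ _ h3 h4
  rw [line, mem_span_singleton]
  refine ⟨c, ?_⟩
  ext i
  fin_cases i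
  · exact h5
  · exact h6
  · exact h7

theorem meet0 {w w' : Fin 3 → k} {a b : B} (h : G.R (line w) a b) (h' : G.R (line w') a b)
    (hl : ∀ c c' : k, c * w 0 = c' * w' 0 → c * w 1 = c' * w' 1 → c * w 2 = c' * w' 2 →
      c * w 0 = 0 ∧ c * w 1 = 0 ∧ c * w 2 = 0) : G.R ⊥ a b := by
  have h2 := (G.inf (line w) (line w') a b).2 ⟨h, h'⟩
  refine G.mono ?_ h2
  rintro v ⟨h3, h4⟩
  have h3' : v ∈ line w := h3
  have h4' : v ∈ line w' := h4
  rw [line, mem_span_singleton] at h3' h4'
  obtain ⟨c, rfl⟩ := h3'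
  obtain ⟨c', hc'⟩ := h4'
  have e0 := congrFun hc' 0
  have e1 := congrFun hc' 1
  have e2 := congrFun hc' 2
  simp only [Pi.smul_apply, smul_eq_mul] at e0 e1 e2
  obtain ⟨h5, h6, h7⟩ := hl c c' e0.symm e1.symm e2.symm
  rw [mem_bot]
  ext i
  fin_cases i
  · exact h5
  · exact h6
  · exact h7

theorem mid {w w' x x' : Fin 3 → k} {a b c : B} (h : G.R (line x) a b) (h' : G.R (line x') b c)
    (hx : ∃ α β : k, α * w 0 + β * w' 0 = x 0 ∧ α * w 1 + β * w' 1 = x 1 ∧ α * w 2 + β * w' 2 = x 2)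
    (hx' : ∃ α β : k, α * w 0 + β * w' 0 = x' 0 ∧ α * w 1 + β * w' 1 = x' 1 ∧
      α * w 2 + β * w' 2 = x' 2) :
    ∃ d, G.R (line w) a d ∧ G.R (line w') d c := by
  have key : ∀ y : Fin 3 → k, (∃ α β : k, α * w 0 + β * w' 0 = y 0 ∧ α * w 1 + β * w' 1 = y 1 ∧
      α * w 2 + β * w' 2 = y 2) → line y ≤ line w ⊔ line w' := by
    rintro y ⟨α, β, h0, h1, h2⟩
    rw [line, span_singleton_le_iff_mem]
    have : y = α • w + β • w' := by
      ext i
      fin_cases i
      · exact h0.symm
      · exact h1.symm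
      · exact h2.symm
    rw [this]
    exact add_mem (mem_sup_left (smul_mem _ _ (mem_span_singleton_self w)))
      (mem_sup_right (smul_mem _ _ (mem_span_singleton_self w')))
  exact (G.comp _ _ _ _).1 (Setoid.trans' _ (G.mono (key x hx) h) (G.mono (key x' hx') h'))

theorem bot_line (w : Fin 3 → k) {a b : B} (h : G.R ⊥ a b) : G.R (line w) a b := G.mono bot_le h

end Rep

section counting

variable {D : Type} [Finite D] (s : Setoid D) (P : D → D → Prop)

theorem exists_inv (tot : ∀ t, ∃ v, P t v) (fn : ∀ t t' v v', s t t' → P t v → P t' v' → s v v')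
    (symm : ∀ t v, P t v → P v t) :
    ∃ σ : Equiv.Perm (Quotient s), σ ^ 2 = 1 ∧ ∀ t v, P t v → σ (Quotient.mk s t) = Quotient.mk s v := by
  classical
  choose F hF using tot
  let f : Quotient s → Quotient s := Quotient.map F (fun t t' h => fn t t' _ _ h (hF t) (hF t'))
  have hf : ∀ t v, P t v → f (Quotient.mk s t) = Quotient.mk s v := by
    intro t v h
    exact Quotient.sound (fn t t _ _ (Setoid.refl' s t) (hF t) h)
  have hff : ∀ q, f (f q) = q := by
    intro q
    induction q using Quotient.inductionOn with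
    | h t =>
      rw [hf t (F t) (hF t), hf (F t) t (symm _ _ (hF t))]
  refine ⟨⟨f, f, hff, hff⟩, ?_, hf⟩
  ext q
  simp [pow_two, hff]

theorem even_card (tot : ∀ t, ∃ v, P t v) (fn : ∀ t t' v v', s t t' → P t v → P t' v' → s v v')
    (symm : ∀ t v, P t v → P v t) (nofix : ∀ t v, P t v → ¬ s t v) :
    2 ∣ Nat.card (Quotient s) := by
  classical
  obtain ⟨σ, h1, h2⟩ := exists_inv s P tot fn symm
  haveI : Finite (Quotient s) := inferInstance
  letI : Fintype (Quotient s) := Fintype.ofFinite _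
  rw [Nat.card_eq_fintype_card]
  by_contra h
  obtain ⟨a, ha⟩ := Equiv.Perm.exists_fixed_point_of_prime (p := 2) (n := 1) h (σ := σ) (by simpa using h1)
  induction a using Quotient.inductionOn with
  | h t =>
    obtain ⟨v, hv⟩ := tot t
    rw [h2 t v hv] at ha
    exact nofix t v hv (Setoid.symm' s (Quotient.exact ha))

theorem odd_card (tot : ∀ t, ∃ v, P t v) (fn : ∀ t t' v v', s t t' → P t v → P t' v' → s v v')
    (symm : ∀ t v, P t v → P v t) (o : D) (fix : ∀ t v, P t v → s t v → s t o)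
    (fixo : ∀ v, P o v → s o v) :
    ¬ 2 ∣ Nat.card (Quotient s) := by
  classical
  obtain ⟨σ, h1, h2⟩ := exists_inv s P tot fn symm
  haveI : Finite (Quotient s) := inferInstance
  letI : Fintype (Quotient s) := Fintype.ofFinite _
  rw [Nat.card_eq_fintype_card]
  intro h
  have ho : σ (Quotient.mk s o) = Quotient.mk s o := by
    obtain ⟨v, hv⟩ := tot o
    rw [h2 o v hv]
    exact Quotient.sound (Setoid.symm' s (fixo v hv))
  obtain ⟨b, hb, hb'⟩ := Equiv.Perm.exists_fixed_point_of_prime' (p := 2) (n := 1) h (σ := σ)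
    (by simpa using h1) ho
  induction b using Quotient.inductionOn with
  | h t =>
    obtain ⟨v, hv⟩ := tot t
    rw [h2 t v hv] at hb
    exact hb' (Quotient.sound (fix t v hv (Setoid.symm' s (Quotient.exact hb))))

end counting

/-- classes of `r` inside the `s`-class of `o` -/
abbrev Q {B : Type} (r s : Setoid B) (o : B) : Type :=
  Quotient (Setoid.comap (Subtype.val : {b : B // s o b} → B) r)

end Pool.Agent.H797R3
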