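import Pool.Agent.H797R3.Counts

set_option autoImplicit false

namespace Pool.Agent.H797R3

open Submodule

/-! ### joins by composition -/

def Good {A : Type} (r s t : Setoid A) : Prop :=
  r ≤ t ∧ s ≤ t ∧ ∀ a b, t a b → ∃ c, r a c ∧ s c b

theorem Good.symm {A : Type} {r s t : Setoid A} (h : Good r s t) : Good s r t := by
  refine ⟨h.2.1, h.1, fun a b hab => ?_⟩
  obtain ⟨c, h1, h2⟩ := h.2.2 b a (Setoid.symm' _ hab)
  exact ⟨c, Setoid.symm' _ h2, Setoid.symm' _ h1⟩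

theorem Good.sup_eq {A : Type} {r s t : Setoid A} (h : Good r s t) : r ⊔ s = t := by
  refine le_antisymm (sup_le h.1 h.2.1) ?_
  intro a b hab
  obtain ⟨c, h1, h2⟩ := h.2.2 a b hab
  have k1 : (r ⊔ s) a c := (le_sup_left : r ≤ r ⊔ s) h1
  have k2 : (r ⊔ s) c b := (le_sup_right : s ≤ r ⊔ s) h2
  exact Setoid.trans' _ k1 k2

theorem Good.iff {A : Type} {r s t : Setoid A} (h : Good r s t) (a b : A) :
    (r ⊔ s) a b ↔ ∃ c, r a c ∧ s c b := by
  rw [h.sup_eq]
  constructor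
  · exact h.2.2 a b
  · rintro ⟨c, h1, h2⟩
    exact Setoid.trans' _ (h.1 h1) (h.2.1 h2)

theorem exists_beta : Nonempty ((ℕ → ZMod 3) ≃ (ℕ → ZMod 2)) := by
  rw [← Cardinal.eq]
  have h3 : Cardinal.mk (ℕ → ZMod 3) = Cardinal.continuum := by
    simp only [Cardinal.mk_pi, Cardinal.prod_const, Cardinal.mk_fintype, ZMod.card]
    simpa using Cardinal.nat_power_aleph0 (n := 3) (by norm_num)
  have h2 : Cardinal.mk (ℕ → ZMod 2) = Cardinal.continuum := by
    simp only [Cardinal.mk_pi, Cardinal.prod_const, Cardinal.mk_fintype, ZMod.card]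
    simpa using Cardinal.nat_power_aleph0 (n := 2) (by norm_num)
  rw [h3, h2]

noncomputable def β : (ℕ → ZMod 3) ≃ (ℕ → ZMod 2) := exists_beta.some

/-- the base set -/
def A : Type := {p : (Fin 3 → ℕ → ZMod 2) × (Fin 3 → ℕ → ZMod 3) // β (p.2 0) = p.1 0}

def Φ1 (W : Submodule (ZMod 2) (Fin 3 → ZMod 2)) : Setoid A where
  r p q := p.1.2 1 = q.1.2 1 ∧ p.1.2 2 = q.1.2 2 ∧ ∀ n, (fun i => p.1.1 i n - q.1.1 i n) ∈ W
  iseqv := by
    refine ⟨?_, ?_, ?_⟩
    · intro p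
      refine ⟨rfl, rfl, fun n => ?_⟩
      have : (fun i => p.1.1 i n - p.1.1 i n) = 0 := by ext i; simp
      rw [this]; exact W.zero_mem
    · rintro p q ⟨h1, h2, h3⟩
      refine ⟨h1.symm, h2.symm, fun n => ?_⟩
      have : (fun i => q.1.1 i n - p.1.1 i n) = - (fun i => p.1.1 i n - q.1.1 i n) := by
        ext i; simp
      rw [this]; exact W.neg_mem (h3 n)
    · rintro p q r ⟨h1, h2, h3⟩ ⟨h1', h2', h3'⟩
      refine ⟨h1.trans h1', h2.trans h2', fun n => ?_⟩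
      have : (fun i => p.1.1 i n - r.1.1 i n) =
          (fun i => p.1.1 i n - q.1.1 i n) + (fun i => q.1.1 i n - r.1.1 i n) := by
        ext i; simp
      rw [this]; exact W.add_mem (h3 n) (h3' n)

def Φ2 (U : Submodule (ZMod 3) (Fin 3 → ZMod 3)) : Setoid A where
  r p q := ∀ n, (fun i => p.1.2 i n - q.1.2 i n) ∈ U
  iseqv := by
    refine ⟨?_, ?_, ?_⟩
    · intro p
      refine fun n => ?_
      have : (fun i => p.1.2 i n - p.1.2 i n) = 0 := by ext i; simp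
      rw [this]; exact U.zero_mem
    · rintro p q h3
      refine fun n => ?_
      have : (fun i => q.1.2 i n - p.1.2 i n) = - (fun i => p.1.2 i n - q.1.2 i n) := by
        ext i; simp
      rw [this]; exact U.neg_mem (h3 n)
    · rintro p q r h3 h3'
      refine fun n => ?_
      have : (fun i => p.1.2 i n - r.1.2 i n) =
          (fun i => p.1.2 i n - q.1.2 i n) + (fun i => q.1.2 i n - r.1.2 i n) := by
        ext i; simp
      rw [this]; exact U.add_mem (h3 n) (h3' n)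

theorem Φ1_apply (W : Submodule (ZMod 2) (Fin 3 → ZMod 2)) (p q : A) :
    Φ1 W p q ↔ p.1.2 1 = q.1.2 1 ∧ p.1.2 2 = q.1.2 2 ∧
      ∀ n, (fun i => p.1.1 i n - q.1.1 i n) ∈ W := Iff.rfl

theorem Φ2_apply (U : Submodule (ZMod 3) (Fin 3 → ZMod 3)) (p q : A) :
    Φ2 U p q ↔ ∀ n, (fun i => p.1.2 i n - q.1.2 i n) ∈ U := Iff.rfl

theorem Φ1_mono {W T : Submodule (ZMod 2) (Fin 3 → ZMod 2)} (h : W ≤ T) : Φ1 W ≤ Φ1 T := by
  intro p q ⟨h1, h2, h3⟩
  exact ⟨h1, h2, fun n => h (h3 n)⟩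

theorem Φ2_mono {U V : Submodule (ZMod 3) (Fin 3 → ZMod 3)} (h : U ≤ V) : Φ2 U ≤ Φ2 V := by
  intro p q h3
  exact fun n => h (h3 n)

theorem Φ1_inf (W T : Submodule (ZMod 2) (Fin 3 → ZMod 2)) : Φ1 (W ⊓ T) = Φ1 W ⊓ Φ1 T := by
  refine le_antisymm (le_inf (Φ1_mono inf_le_left) (Φ1_mono inf_le_right)) ?_
  rintro p q ⟨⟨h1, h2, h3⟩, ⟨_, _, h3'⟩⟩
  exact ⟨h1, h2, fun n => ⟨h3 n, h3' n⟩⟩

theorem Φ2_inf (U V : Submodule (ZMod 3) (Fin 3 → ZMod 3)) : Φ2 (U ⊓ V) = Φ2 U ⊓ Φ2 V := by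
  refine le_antisymm (le_inf (Φ2_mono inf_le_left) (Φ2_mono inf_le_right)) ?_
  rintro p q ⟨h3, h3'⟩
  exact fun n => ⟨h3 n, h3' n⟩

theorem Φ1_good (W T : Submodule (ZMod 2) (Fin 3 → ZMod 2)) : Good (Φ1 W) (Φ1 T) (Φ1 (W ⊔ T)) := by
  refine ⟨Φ1_mono le_sup_left, Φ1_mono le_sup_right, ?_⟩
  rintro p q ⟨h1, h2, h3⟩
  have h4 : ∀ n, ∃ w ∈ W, ∃ t ∈ T, w + t = (fun i => p.1.1 i n - q.1.1 i n) :=
    fun n => mem_sup.1 (h3 n)
  choose w hw t ht hwt using h4
  refine ⟨⟨(fun i n => p.1.1 i n - w n i,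
    fun i => if i = 0 then β.symm (fun n => p.1.1 0 n - w n 0) else p.1.2 i), ?_⟩,
    ⟨?_, ?_, ?_⟩, ⟨?_, ?_, ?_⟩⟩
  · simp
  · simp
  · simp
  · intro n
    have : (fun i => p.1.1 i n - (p.1.1 i n - w n i)) = w n := by
      ext i; ring
    rw [this]; exact hw n
  · simpa using h1
  · simpa using h2
  · intro n
    have : (fun i => (p.1.1 i n - w n i) - q.1.1 i n) = t n := by
      ext i
      have := congrFun (hwt n) i
      simp only [Pi.add_apply] at this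
      linear_combination -this
    rw [this]; exact ht n

theorem Φ2_good (U V : Submodule (ZMod 3) (Fin 3 → ZMod 3)) : Good (Φ2 U) (Φ2 V) (Φ2 (U ⊔ V)) := by
  refine ⟨Φ2_mono le_sup_left, Φ2_mono le_sup_right, ?_⟩
  rintro p q h3
  have h4 : ∀ n, ∃ w ∈ U, ∃ t ∈ V, w + t = (fun i => p.1.2 i n - q.1.2 i n) :=
    fun n => mem_sup.1 (h3 n)
  choose w hw t ht hwt using h4
  refine ⟨⟨(fun i => if i = 0 then β (fun n => p.1.2 0 n - w n 0) else p.1.1 i,
    fun i n => p.1.2 i n - w n i), ?_⟩, ?_, ?_⟩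
  · simp
  · intro n
    have : (fun i => p.1.2 i n - (p.1.2 i n - w n i)) = w n := by
      ext i; ring
    rw [this]; exact hw n
  · intro n
    have : (fun i => (p.1.2 i n - w n i) - q.1.2 i n) = t n := by
      ext i
      have := congrFun (hwt n) i
      simp only [Pi.add_apply] at this
      linear_combination -this
    rw [this]; exact ht n

theorem fst_zero_iff (p q : A) : p.1.1 0 = q.1.1 0 ↔ p.1.2 0 = q.1.2 0 := by
  rw [← p.2, ← q.2]
  exact β.injective.eq_iff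

theorem Φ2_bot_apply (p q : A) : Φ2 ⊥ p q ↔ p.1.2 = q.1.2 := by
  rw [Φ2_apply]
  constructor
  · intro h
    ext i n
    have := congrFun ((mem_bot (ZMod 3)).1 (h n)) i
    exact sub_eq_zero.1 this
  · intro h n
    rw [mem_bot]
    ext i
    rw [h]; simp

theorem mem_planeX2 (v : Fin 3 → ZMod 2) : v ∈ plane X2 ↔ v 0 = 0 := by
  rw [mem_plane]; simp

theorem Φ1_plane : Φ1 (plane X2) = Φ2 ⊥ := by
  ext p q
  rw [Φ2_bot_apply, Φ1_apply]
  constructor
  · rintro ⟨h1, h2, h3⟩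
    have h0 : p.1.2 0 = q.1.2 0 := by
      rw [← fst_zero_iff]
      ext n
      have := h3 n
      rw [mem_planeX2] at this
      exact sub_eq_zero.1 this
    ext i : 1
    fin_cases i
    · exact h0
    · exact h1
    · exact h2
  · intro h
    refine ⟨congrFun h 1, congrFun h 2, fun n => ?_⟩
    rw [mem_planeX2]
    have h0 : p.1.1 0 = q.1.1 0 := by
      rw [fst_zero_iff]
      exact congrFun h 0
    simp [h0]

theorem mem_lineX3 (v : Fin 3 → ZMod 3) : v ∈ line X3 ↔ v 1 = 0 ∧ v 2 = 0 := by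
  rw [line, mem_span_singleton]
  constructor
  · rintro ⟨c, rfl⟩
    simp
  · rintro ⟨h1, h2⟩
    refine ⟨v 0, ?_⟩
    ext i
    fin_cases i
    · simp
    · simp [h1]
    · simp [h2]

theorem Φ1_top : Φ1 ⊤ = Φ2 (line X3) := by
  ext p q
  rw [Φ2_apply, Φ1_apply]
  constructor
  · rintro ⟨h1, h2, h3⟩ n
    rw [mem_lineX3, h1, h2]
    simp
  · intro h
    refine ⟨?_, ?_, fun n => trivial⟩
    · ext n
      exact sub_eq_zero.1 ((mem_lineX3 _).1 (h n)).1
    · ext n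
      exact sub_eq_zero.1 ((mem_lineX3 _).1 (h n)).2

theorem inf12 (W : Submodule (ZMod 2) (Fin 3 → ZMod 2)) (U : Submodule (ZMod 3) (Fin 3 → ZMod 3)) :
    (∃ T, Φ1 W ⊓ Φ2 U = Φ1 T) := by
  by_cases h : X3 ∈ U
  · refine ⟨W, inf_eq_left.2 ?_⟩
    calc Φ1 W ≤ Φ1 ⊤ := Φ1_mono le_top
      _ = Φ2 (line X3) := Φ1_top
      _ ≤ Φ2 U := Φ2_mono ((span_singleton_le_iff_mem _ _).2 h)
  · refine ⟨W ⊓ plane X2, ?_⟩
    rw [Φ1_inf, Φ1_plane]
    refine le_antisymm (le_inf inf_le_left ?_) (inf_le_inf_left _ (Φ2_mono bot_le))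
    rintro p q ⟨⟨h1, h2, -⟩, h3⟩
    rw [Φ2_bot_apply]
    have h0 : p.1.2 0 = q.1.2 0 := by
      ext n
      by_contra hne
      apply h
      have h4 : (fun i => p.1.2 i n - q.1.2 i n) ∈ U := h3 n
      have h5 := U.smul_mem (p.1.2 0 n - q.1.2 0 n)⁻¹ h4
      have h6 : (p.1.2 0 n - q.1.2 0 n)⁻¹ • (fun i => p.1.2 i n - q.1.2 i n) = X3 := by
        ext i
        fin_cases i
        · simp only [Pi.smul_apply, smul_eq_mul]
          exact inv_mul_cancel₀ (sub_ne_zero.2 hne)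
        · simp [h1]
        · simp [h2]
      rwa [h6] at h5
    ext i : 1
    fin_cases i
    · exact h0
    · exact h1
    · exact h2

theorem good12 (W : Submodule (ZMod 2) (Fin 3 → ZMod 2)) (U : Submodule (ZMod 3) (Fin 3 → ZMod 3)) :
    (∃ V, Good (Φ1 W) (Φ2 U) (Φ2 V)) := by
  by_cases h : W ≤ plane X2
  · refine ⟨U, ?_, le_rfl, ?_⟩
    · calc Φ1 W ≤ Φ1 (plane X2) := Φ1_mono h
        _ = Φ2 ⊥ := Φ1_plane
        _ ≤ Φ2 U := Φ2_mono bot_le
    · intro a b hab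
      exact ⟨a, Setoid.refl' _ a, hab⟩
  · obtain ⟨w, hw, hw'⟩ := SetLike.not_le_iff_exists.1 h
    have hw0 : w 0 = 1 := by
      rw [mem_planeX2] at hw'
      revert hw'
      generalize w 0 = z
      revert z
      decide
    refine ⟨U ⊔ line X3, ?_, Φ2_mono le_sup_left, ?_⟩
    · calc Φ1 W ≤ Φ1 ⊤ := Φ1_mono le_top
        _ = Φ2 (line X3) := Φ1_top
        _ ≤ _ := Φ2_mono le_sup_right
    · rintro p q h3
      have h4 : ∀ n, ∃ u ∈ U, ∃ t ∈ line X3, u + t = (fun i => p.1.2 i n - q.1.2 i n) :=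
        fun n => mem_sup.1 (h3 n)
      choose u hu t ht hut using h4
      refine ⟨⟨(fun i n => p.1.1 i n -
          (p.1.1 0 n - β (fun m => p.1.2 0 m - t m 0) n) * w i,
        fun i n => p.1.2 i n - t n i), ?_⟩, ⟨?_, ?_, ?_⟩, ?_⟩
      · ext n
        simp [hw0]
      · ext n
        have := (mem_lineX3 _).1 (ht n)
        simp [this.1]
      · ext n
        have := (mem_lineX3 _).1 (ht n)
        simp [this.2]
      · intro n
        have : (fun i => p.1.1 i n - (p.1.1 i n -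
          (p.1.1 0 n - β (fun m => p.1.2 0 m - t m 0) n) * w i)) =
            (p.1.1 0 n - β (fun m => p.1.2 0 m - t m 0) n) • w := by
          ext i
          simp only [Pi.smul_apply, smul_eq_mul]
          ring
        rw [this]
        exact W.smul_mem _ hw
      · intro n
        have : (fun i => (p.1.2 i n - t n i) - q.1.2 i n) = u n := by
          ext i
          have := congrFun (hut n) i
          simp only [Pi.add_apply] at this
          linear_combination -this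
        rw [this]; exact hu n

/-- the carrier -/
def C : Set (Setoid A) := Set.range Φ1 ∪ Set.range Φ2

theorem C_good (r s : Setoid A) (hr : r ∈ C) (hs : s ∈ C) : ∃ t ∈ C, Good r s t := by
  rcases hr with ⟨W, rfl⟩ | ⟨U, rfl⟩ <;> rcases hs with ⟨T, rfl⟩ | ⟨V, rfl⟩
  · exact ⟨_, Or.inl ⟨_, rfl⟩, Φ1_good W T⟩
  · obtain ⟨V', h⟩ := good12 W V
    exact ⟨_, Or.inr ⟨_, rfl⟩, h⟩
  · obtain ⟨V', h⟩ := good12 T U
    exact ⟨_, Or.inr ⟨_, rfl⟩, h.symm⟩
  · exact ⟨_, Or.inr ⟨_, rfl⟩, Φ2_good U V⟩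

theorem C_inf (r s : Setoid A) (hr : r ∈ C) (hs : s ∈ C) : r ⊓ s ∈ C := by
  rcases hr with ⟨W, rfl⟩ | ⟨U, rfl⟩ <;> rcases hs with ⟨T, rfl⟩ | ⟨V, rfl⟩
  · exact Or.inl ⟨_, Φ1_inf W T⟩
  · obtain ⟨V', h⟩ := inf12 W V
    exact Or.inl ⟨_, h.symm⟩
  · obtain ⟨V', h⟩ := inf12 T U
    rw [inf_comm]
    exact Or.inl ⟨_, h.symm⟩
  · exact Or.inr ⟨_, Φ2_inf U V⟩

/-- the lattice -/
def Lat : Sublattice (Setoid A) where
  carrier := C
  supClosed' := by
    intro r hr s hs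
    obtain ⟨t, ht, h⟩ := C_good r s hr hs
    rw [h.sup_eq]
    exact ht
  infClosed' := by
    intro r hr s hs
    exact C_inf r s hr hs

instance : Finite Lat := by
  have : C.Finite := by
    haveI : Finite (Submodule (ZMod 2) (Fin 3 → ZMod 2)) :=
      Finite.of_injective _ SetLike.coe_injective
    haveI : Finite (Submodule (ZMod 3) (Fin 3 → ZMod 3)) :=
      Finite.of_injective _ SetLike.coe_injective
    exact (Set.finite_range _).union (Set.finite_range _)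
  exact this.to_subtype

theorem lat_comp (x y : Lat) (a b : A) :
    (Lat.subtype (x ⊔ y)) a b ↔ ∃ c : A, (Lat.subtype x) a c ∧ (Lat.subtype y) c b := by
  obtain ⟨t, ht, h⟩ := C_good x.1 y.1 x.2 y.2
  exact h.iff a b

def φ1 (W : Submodule (ZMod 2) (Fin 3 → ZMod 2)) : Lat := ⟨Φ1 W, Or.inl ⟨W, rfl⟩⟩
def φ2 (U : Submodule (ZMod 3) (Fin 3 → ZMod 3)) : Lat := ⟨Φ2 U, Or.inr ⟨U, rfl⟩⟩

theorem φ1_inf (W T : Submodule (ZMod 2) (Fin 3 → ZMod 2)) : φ1 (W ⊓ T) = φ1 W ⊓ φ1 T :=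
  Subtype.ext (Φ1_inf W T)
theorem φ2_inf (W T : Submodule (ZMod 3) (Fin 3 → ZMod 3)) : φ2 (W ⊓ T) = φ2 W ⊓ φ2 T :=
  Subtype.ext (Φ2_inf W T)
theorem φ1_sup (W T : Submodule (ZMod 2) (Fin 3 → ZMod 2)) : φ1 (W ⊔ T) = φ1 W ⊔ φ1 T :=
  Subtype.ext (Φ1_good W T).sup_eq.symm
theorem φ2_sup (W T : Submodule (ZMod 3) (Fin 3 → ZMod 3)) : φ2 (W ⊔ T) = φ2 W ⊔ φ2 T :=
  Subtype.ext (Φ2_good W T).sup_eq.symm
theorem φ_plane : φ1 (plane X2) = φ2 ⊥ := Subtype.ext Φ1_plane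
theorem φ_top : φ1 ⊤ = φ2 (line X3) := Subtype.ext Φ1_top

theorem φ_ne : φ1 (plane X2) ≠ φ1 ⊤ := by
  rw [φ_plane, φ_top]
  intro h
  have h' : Φ2 ⊥ = Φ2 (line X3) := congrArg Subtype.val h
  let p : A := ⟨(fun _ => β 0, fun _ => 0), rfl⟩
  let q : A := ⟨(fun _ => β 1, fun i => if i = 0 then 1 else 0), rfl⟩
  have h1 : Φ2 (line X3) p q := by
    intro n
    rw [mem_lineX3]
    simp [p, q]
  rw [← h', Φ2_bot_apply] at h1
  have := congrFun (congrFun h1 0) 0
  simp [p, q] at this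

/-! ### no finite representation -/

theorem persp {B : Type} (G : Rep (ZMod 2) B) (o : B) :
    Nat.card (Q (G.R ⊥) (G.R (line X2)) o) = Nat.card (Q (G.R (plane X2)) (G.R ⊤) o) := by
  have hinf : line X2 ⊓ plane X2 ≤ ⊥ := by
    rintro v ⟨h1, h2⟩
    have h1' : v ∈ line X2 := h1
    have h2' : v ∈ plane X2 := h2
    rw [mem_planeX2] at h2'
    rw [line, mem_span_singleton] at h1'
    obtain ⟨c, rfl⟩ := h1'
    rw [mem_bot]
    have : c = 0 := by simpa using h2'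
    simp [this]
  have hsup : (⊤ : Submodule (ZMod 2) (Fin 3 → ZMod 2)) ≤ line X2 ⊔ plane X2 := by
    intro v _
    have : v = v 0 • X2 + (v - v 0 • X2) := (add_sub_cancel _ _).symm
    rw [this]
    refine add_mem (mem_sup_left (smul_mem _ _ (mem_span_singleton_self _))) (mem_sup_right ?_)
    rw [mem_planeX2]
    simp
  let f : {b : B // G.R (line X2) o b} → {b : B // G.R ⊤ o b} :=
    fun b => ⟨b.1, G.mono le_top b.2⟩
  refine Nat.card_congr (Equiv.ofBijective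
    (Quotient.map' (s₁ := Setoid.comap (Subtype.val : {b : B // G.R (line X2) o b} → B) (G.R ⊥))
      (s₂ := Setoid.comap (Subtype.val : {b : B // G.R ⊤ o b} → B) (G.R (plane X2))) f ?_) ⟨?_, ?_⟩)
  · intro a b hab
    exact G.mono bot_le hab
  · intro a b
    induction a using Quotient.inductionOn' with
    | h a =>
    induction b using Quotient.inductionOn' with
    | h b =>
    intro hab
    have hab' : G.R (plane X2) a.1 b.1 :=
      Quotient.exact' (s₁ := Setoid.comap (Subtype.val : {b : B // G.R ⊤ o b} → B) (G.R (plane X2)))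
        (a := f a) (b := f b) hab
    have h2 : G.R (line X2) a.1 b.1 := Setoid.trans' _ (Setoid.symm' _ a.2) b.2
    refine Quotient.sound' ?_
    exact G.mono hinf ((G.inf _ _ _ _).2 ⟨h2, hab'⟩)
  · intro c
    induction c using Quotient.inductionOn' with
    | h c =>
    obtain ⟨a, h1, h2⟩ := (G.comp _ _ _ _).1 (G.mono hsup c.2)
    exact ⟨Quotient.mk'' ⟨a, h1⟩, Quotient.sound' h2⟩

theorem no_finite (B : Type) [Finite B] (g : LatticeHom Lat (Setoid B)) (hg : Function.Injective g)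
    (hc : ∀ (x y : Lat) (a b : B), (g (x ⊔ y)) a b ↔ ∃ c : B, (g x) a c ∧ (g y) c b) : False := by
  let G1 : Rep (ZMod 2) B :=
    { R := fun W => g (φ1 W)
      inf := fun W T a b => by
        rw [φ1_inf, InfHomClass.map_inf]
        exact Iff.rfl
      comp := fun W T a b => by
        rw [φ1_sup]
        exact hc _ _ a b }
  let G2 : Rep (ZMod 3) B :=
    { R := fun W => g (φ2 W)
      inf := fun W T a b => by
        rw [φ2_inf, InfHomClass.map_inf]
        exact Iff.rfl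
      comp := fun W T a b => by
        rw [φ2_sup]
        exact hc _ _ a b }
  have e1 : G1.R (plane X2) = G2.R ⊥ := congrArg g φ_plane
  have e2 : G1.R ⊤ = G2.R (line X3) := congrArg g φ_top
  have hne : G1.R (plane X2) ≠ G1.R ⊤ := fun h => φ_ne (hg h)
  obtain ⟨o, c, hoc, hoc'⟩ : ∃ o c, G1.R ⊤ o c ∧ ¬ G1.R (plane X2) o c := by
    by_contra hcon
    push Not at hcon
    exact hne (le_antisymm (fun a b h => G1.mono le_top h) (fun a b h => hcon a b h))
  have hsup : (⊤ : Submodule (ZMod 2) (Fin 3 → ZMod 2)) ≤ line X2 ⊔ plane X2 := by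
    intro v _
    have : v = v 0 • X2 + (v - v 0 • X2) := (add_sub_cancel _ _).symm
    rw [this]
    refine add_mem (mem_sup_left (smul_mem _ _ (mem_span_singleton_self _))) (mem_sup_right ?_)
    rw [mem_planeX2]
    simp
  obtain ⟨a, h1, h2⟩ := (G1.comp _ _ _ _).1 (G1.mono hsup hoc)
  have h3 : ¬ G1.R ⊥ o a := fun h => hoc' (Setoid.trans' _ (G1.mono bot_le h) h2)
  have k1 := even_two G1 o a h1 h3
  rw [persp G1 o, e1, e2] at k1
  exact odd_three G2 o k1

end Pool.Agent.H797R3
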